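import Pool.Agent.Lib_helper52.EPS.Defs
import Pool.Agent.Lib_helper73.EPS.C0
set_option autoImplicit false

namespace Pool.Agent.EPS

open MeasureTheory Set Filter Topology

variable {d : ℕ}

theorem e1_meas {f : EuclideanSpace ℝ (Fin d) → ℝ} (hf : Measurable f) (n : ℕ) :
    MeasurableSet {x : EuclideanSpace ℝ (Fin d) | ‖x‖ ≤ n ∧ f x ≤ n} :=
  (measurableSet_le measurable_norm measurable_const).inter
    (measurableSet_le hf measurable_const)

theorem e1_ev {f : EuclideanSpace ℝ (Fin d) → ℝ} (x : EuclideanSpace ℝ (Fin d)) :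
    ∀ᶠ n : ℕ in atTop, x ∈ {x : EuclideanSpace ℝ (Fin d) | ‖x‖ ≤ n ∧ f x ≤ n} := by
  obtain ⟨N, hN⟩ := exists_nat_ge (max ‖x‖ (f x))
  filter_upwards [eventually_ge_atTop N] with n hn
  have h1 : (N : ℝ) ≤ n := by exact_mod_cast hn
  exact ⟨(le_max_left _ _).trans (hN.trans h1), (le_max_right _ _).trans (hN.trans h1)⟩

/-- truncation -/
theorem trunc {f : EuclideanSpace ℝ (Fin d) → ℝ} (hf : FinD f) :
    ∃ u : ℕ → EuclideanSpace ℝ (Fin d) → ℝ, (∀ n, Bdc (u n)) ∧ (∀ n x, u n x ≤ f x) ∧
      Tendsto (fun n => ∫ x, u n x) atTop (𝓝 1) ∧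
      Tendsto (fun n => KK (u n)) atTop (𝓝 (∫ x, Real.negMulLog (f x))) := by
  obtain ⟨S, hS⟩ : ∃ S : ℕ → Set (EuclideanSpace ℝ (Fin d)), ∀ n,
      S n = {x : EuclideanSpace ℝ (Fin d) | ‖x‖ ≤ n ∧ f x ≤ n} := ⟨_, fun _ => rfl⟩
  have hSm : ∀ n, MeasurableSet (S n) := fun n => by rw [hS]; exact e1_meas hf.meas n
  have hSe : ∀ x, ∀ᶠ n : ℕ in atTop, x ∈ S n := by
    intro x
    filter_upwards [e1_ev (f := f) x] with n hn
    rw [hS]
    exact hn
  have hle : ∀ n x, (S n).indicator f x ≤ f x := fun n x =>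
    Set.indicator_le_self' (fun _ _ => hf.nn _) x
  have hnn : ∀ n x, 0 ≤ (S n).indicator f x := fun n x =>
    Set.indicator_nonneg (fun _ _ => hf.nn _) x
  have hmeas : ∀ n, Measurable ((S n).indicator f) := fun n => hf.meas.indicator (hSm n)
  have hneg : ∀ n x, Real.negMulLog ((S n).indicator f x)
      = (S n).indicator (fun x => Real.negMulLog (f x)) x := by
    intro n x
    by_cases hx : x ∈ S n
    · rw [Set.indicator_of_mem hx, Set.indicator_of_mem hx]
    · rw [Set.indicator_of_notMem hx, Set.indicator_of_notMem hx, Real.negMulLog_zero]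
  have h1 : Tendsto (fun n => ∫ x, (S n).indicator f x) atTop (𝓝 1) := by
    rw [← hf.one]
    refine tendsto_integral_of_dominated_convergence f
      (fun n => (hmeas n).aestronglyMeasurable) hf.int (fun n => ?_) ?_
    · refine Eventually.of_forall (fun x => ?_)
      rw [Real.norm_of_nonneg (hnn n x)]
      exact hle n x
    · refine Eventually.of_forall (fun x => ?_)
      refine tendsto_const_nhds.congr' ?_
      filter_upwards [hSe x] with n hn
      rw [Set.indicator_of_mem hn]
  have h2 : Tendsto (fun n => ∫ x, Real.negMulLog ((S n).indicator f x)) atTop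
      (𝓝 (∫ x, Real.negMulLog (f x))) := by
    refine tendsto_integral_of_dominated_convergence (fun x => ‖Real.negMulLog (f x)‖)
      (fun n => ?_) hf.ent.norm (fun n => ?_) ?_
    · exact (Real.continuous_negMulLog.measurable.comp (hmeas n)).aestronglyMeasurable
    · refine Eventually.of_forall (fun x => ?_)
      rw [hneg]
      exact norm_indicator_le_norm_self _ x
    · refine Eventually.of_forall (fun x => ?_)
      refine tendsto_const_nhds.congr' ?_
      filter_upwards [hSe x] with n hn
      rw [Set.indicator_of_mem hn]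
  refine ⟨fun n => (S n).indicator f, fun n => ⟨hmeas n, hnn n, ⟨n, fun x => ?_⟩,
    ⟨Metric.closedBall 0 n, isCompact_closedBall _ _, fun x hx => ?_⟩⟩, hle, h1, ?_⟩
  · by_cases hx : x ∈ S n
    · refine (hle n x).trans ?_
      rw [hS] at hx
      exact hx.2
    · exact (Set.indicator_of_notMem hx f).le.trans (Nat.cast_nonneg n)
  · refine Set.indicator_of_notMem (fun h => hx ?_) f
    rw [hS] at h
    rw [mem_closedBall_zero_iff]
    exact h.1
  · have h3 : Tendsto (fun n => Real.negMulLog (∫ x, (S n).indicator f x)) atTop (𝓝 0) := by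
      have := (Real.continuous_negMulLog.tendsto 1).comp h1
      rw [Real.negMulLog_one] at this
      exact this
    have h4 := h2.sub h3
    rw [sub_zero] at h4
    exact h4

end Pool.Agent.EPS
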